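import Pool.Agent.Lib.MP_e00b88_lc.Core

/-!
MP_e00b88_lc: the closure of the orbit of the span of `n` multiplicative functions under the group
of all multiplicative functions.
-/

set_option autoImplicit false

open Filter Topology

namespace WTorus

variable {m d : ℕ}

/-- A bounded real function has a limit along an ultrafilter. -/
private theorem exists_lim {ι : Type*} (U : Ultrafilter ι) (f : ι → ℝ) (C : ℝ)
    (h : ∀ᶠ k in (U : Filter ι), |f k| ≤ C) : ∃ L, Tendsto f U (𝓝 L) := by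
  have h1 : ((U.map f : Ultrafilter ℝ) : Filter ℝ) ≤ 𝓟 (Set.Icc (-C) C) := by
    rw [le_principal_iff]
    change f ⁻¹' (Set.Icc (-C) C) ∈ (U : Filter ι)
    filter_upwards [h] with k hk
    exact abs_le.mp hk
  obtain ⟨x, -, hx⟩ := isCompact_Icc.ultrafilter_le_nhds _ h1
  exact ⟨x, hx⟩

private theorem exists_lim_circle {ι : Type*} (U : Ultrafilter ι) (f : ι → ℂ)
    (h : ∀ᶠ k in (U : Filter ι), ‖f k‖ = 1) : ∃ u : ℂ, ‖u‖ = 1 ∧ Tendsto f U (𝓝 u) := by
  have h1 : ((U.map f : Ultrafilter ℂ) : Filter ℂ) ≤ 𝓟 (Metric.sphere (0 : ℂ) 1) := by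
    rw [le_principal_iff]
    change f ⁻¹' (Metric.sphere (0 : ℂ) 1) ∈ (U : Filter ι)
    filter_upwards [h] with k hk
    simpa using hk
  obtain ⟨x, hx, hx'⟩ := (isCompact_sphere (0 : ℂ) 1).ultrafilter_le_nhds _ h1
  exact ⟨x, by simpa using hx, hx'⟩

/-- Trichotomy along an ultrafilter. -/
private theorem tricho {ι : Type*} (U : Ultrafilter ι) (f : ι → ℝ) :
    (∃ C : ℝ, ∀ᶠ k in (U : Filter ι), |f k| ≤ C) ∨ Tendsto f U atTop ∨ Tendsto f U atBot := by
  by_cases h : ∃ C : ℝ, ∀ᶠ k in (U : Filter ι), |f k| ≤ C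
  · exact Or.inl h
  right
  have h1 : ∀ C : ℝ, ∀ᶠ k in (U : Filter ι), C < |f k| := by
    intro C
    have h0 : ¬ ∀ᶠ k in (U : Filter ι), |f k| ≤ C := fun h' => h ⟨C, h'⟩
    have h2 := Ultrafilter.eventually_not.mpr h0
    filter_upwards [h2] with k hk
    exact not_le.mp hk
  rcases Ultrafilter.em U (fun k => 0 ≤ f k) with h2 | h2
  · left
    rw [tendsto_atTop]
    intro b
    filter_upwards [h1 |b|, h2] with k hk hk'
    rw [abs_of_nonneg hk'] at hk
    exact ((le_abs_self b).trans hk.le)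
  · right
    rw [tendsto_atBot]
    intro b
    filter_upwards [h1 |b|, h2] with k hk hk'
    rw [abs_of_neg (not_le.mp hk')] at hk
    have := neg_abs_le b
    linarith

private theorem pow_exp (z : Fin m → ℂ) (hz : ∀ j, z j ≠ 0) (β : Fin m → ℕ) :
    ∏ j, z j ^ β j = (∏ j, (z j / ‖z j‖) ^ β j) *
      Real.exp (∑ j, (β j : ℝ) * Real.log ‖z j‖) := by
  rw [Real.exp_sum, Complex.ofReal_prod, ← Finset.prod_mul_distrib]
  refine Finset.prod_congr rfl fun j _ => ?_
  have h1 : (‖z j‖ : ℝ) ≠ 0 := norm_ne_zero_iff.mpr (hz j)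
  have h2 : (Real.exp ((β j : ℝ) * Real.log ‖z j‖) : ℝ) = ‖z j‖ ^ β j := by
    rw [mul_comm, Real.exp_mul, Real.exp_log (norm_pos_iff.mpr (hz j)), Real.rpow_natCast]
  rw [h2, div_pow]
  push_cast
  rw [div_mul_cancel₀]
  exact pow_ne_zero _ (by exact_mod_cast h1)

theorem clos_aux {n t : ℕ} (c : Fin n → Fin m → ℂ) {ι : Type*} (U : Ultrafilter ι)
    (τ : ι → Fin m → ℂ) (hτ : ∀ k j, τ k j ≠ 0) (lam : ι → Fin n → ℂ)
    (φ : (Fin m → ℕ) → ℂ)
    (hlim : ∀ β : Fin m → ℕ, ∑ j, β j = d → Tendsto (fun k => (∏ j, τ k j ^ β j) *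
      ∑ i, lam k i * ∏ j, c i j ^ β j) U (𝓝 (φ β)))
    (ht : n * (t + 2) < 2 ^ (t + 1)) :
    ES m d (n * (n * (2 * (m + 1) * (2 * d + 1)) ^ t)) φ := by
  classical
  -- logarithms of the absolute values
  let x : ι → Fin m → ℝ := fun k j => Real.log ‖τ k j‖
  let pr : (Fin m → ℝ) → ι → ℝ := fun y k => ∑ j, y j * x k j
  have pr_add : ∀ y z k, pr (y + z) k = pr y k + pr z k := fun y z k => by
    simp only [pr, Pi.add_apply, add_mul, Finset.sum_add_distrib]
  have pr_smul : ∀ (a : ℝ) y k, pr (a • y) k = a * pr y k := fun a y k => by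
    simp only [pr, Pi.smul_apply, smul_eq_mul, Finset.mul_sum, mul_assoc]
  let H : Submodule ℝ (Fin m → ℝ) :=
    { carrier := {y | ∃ C : ℝ, ∀ᶠ k in (U : Filter ι), |pr y k| ≤ C}
      add_mem' := by
        rintro y z ⟨C, hC⟩ ⟨C', hC'⟩
        refine ⟨C + C', ?_⟩
        filter_upwards [hC, hC'] with k hk hk'
        rw [pr_add]
        exact (abs_add_le _ _).trans (add_le_add hk hk')
      zero_mem' := ⟨0, Eventually.of_forall fun k => by simp [pr]⟩
      smul_mem' := by
        rintro a y ⟨C, hC⟩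
        refine ⟨|a| * C, ?_⟩
        filter_upwards [hC] with k hk
        rw [pr_smul, abs_mul]
        exact mul_le_mul_of_nonneg_left hk (abs_nonneg a) }
  have memH : ∀ y, y ∈ H ↔ ∃ C : ℝ, ∀ᶠ k in (U : Filter ι), |pr y k| ≤ C := fun y => Iff.rfl
  -- the linear functional given by the limits
  have hL : ∀ y : H, ∃ L : ℝ, Tendsto (pr y) U (𝓝 L) := fun y => by
    obtain ⟨C, hC⟩ := (memH _).mp y.2
    exact exists_lim U _ C hC
  choose Lf hLf using hL
  let Llin : H →ₗ[ℝ] ℝ :=
    { toFun := Lf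
      map_add' := fun y z => by
        refine tendsto_nhds_unique (hLf (y + z)) ?_
        refine ((hLf y).add (hLf z)).congr fun k => ?_
        rw [Submodule.coe_add, pr_add]
      map_smul' := fun a y => by
        refine tendsto_nhds_unique (hLf (a • y)) ?_
        refine ((hLf y).const_mul a).congr fun k => ?_
        rw [Submodule.coe_smul, pr_smul] }
  obtain ⟨ℓ, hℓ⟩ := Llin.exists_extend
  have hℓ' : ∀ y ∈ H, Tendsto (pr y) U (𝓝 (ℓ y)) := by
    intro y hy
    have h1 : ℓ y = Lf ⟨y, hy⟩ := LinearMap.congr_fun hℓ ⟨y, hy⟩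
    rw [h1]
    exact hLf ⟨y, hy⟩
  -- phases
  have hu : ∀ j, ∃ u : ℂ, ‖u‖ = 1 ∧ Tendsto (fun k => τ k j / ‖τ k j‖) U (𝓝 u) := fun j => by
    refine exists_lim_circle U _ (Eventually.of_forall fun k => ?_)
    rw [norm_div, Complex.norm_real, norm_norm, div_self (norm_ne_zero_iff.mpr (hτ k j))]
  choose u hu1 hu2 using hu
  have hu0 : ∀ j, u j ≠ 0 := fun j h => by
    have := hu1 j; rw [h, norm_zero] at this; exact zero_ne_one this
  -- the vectors of exponents
  let vec : (Fin m → ℕ) → (Fin m → ℝ) := fun β j => (β j : ℝ)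
  let D : (Fin m → ℕ) → (Fin m → ℕ) → ι → ℝ := fun β b k => pr (vec β - vec b) k
  let mon : (Fin m → ℕ) → ι → ℂ := fun β k => ∏ j, τ k j ^ β j
  have hmon0 : ∀ β k, mon β k ≠ 0 := fun β k =>
    Finset.prod_ne_zero_iff.mpr fun j _ => pow_ne_zero _ (hτ k j)
  let ph : (Fin m → ℕ) → ι → ℂ := fun β k => ∏ j, (τ k j / ‖τ k j‖) ^ β j
  have hph : ∀ β : Fin m → ℕ, Tendsto (ph β) U (𝓝 (∏ j, u j ^ β j)) := fun β =>
    tendsto_finsetProd _ fun j _ => (hu2 j).pow (β j)
  have hph0 : ∀ β : Fin m → ℕ, ∏ j, u j ^ β j ≠ 0 := fun β =>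
    Finset.prod_ne_zero_iff.mpr fun j _ => pow_ne_zero _ (hu0 j)
  have hph1 : ∀ β k, ‖ph β k‖ = 1 := fun β k => by
    simp only [ph, norm_prod, norm_pow]
    refine Finset.prod_eq_one fun j _ => ?_
    rw [norm_div, Complex.norm_real, norm_norm, div_self (norm_ne_zero_iff.mpr (hτ k j)), one_pow]
  have hratio : ∀ β b k, mon β k / mon b k = ph β k / ph b k * (Real.exp (D β b k) : ℂ) := by
    intro β b k
    have h1 : ∀ β, mon β k = ph β k * (Real.exp (pr (vec β) k) : ℂ) := fun β =>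
      pow_exp (τ k) (hτ k) β
    have h2 : D β b k = pr (vec β) k - pr (vec b) k := by
      simp only [D, pr, Pi.sub_apply, sub_mul, Finset.sum_sub_distrib]
    rw [h1 β, h1 b, h2, Real.exp_sub]
    push_cast
    rw [mul_div_mul_comm]
  have hD0 : ∀ β b, Tendsto (D β b) U atBot → Tendsto (fun k => mon β k / mon b k) U (𝓝 0) := by
    intro β b h
    rw [tendsto_zero_iff_norm_tendsto_zero]
    have h1 : Tendsto (fun k => Real.exp (D β b k)) U (𝓝 0) := Real.tendsto_exp_atBot.comp h
    refine h1.congr fun k => ?_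
    rw [hratio, norm_mul, norm_div, hph1, hph1, div_one, one_mul, Complex.norm_real,
      Real.norm_eq_abs, abs_of_pos (Real.exp_pos _)]
  have hDsymm : ∀ β b k, D b β k = -D β b k := fun β b k => by
    simp only [D, pr, Pi.sub_apply, ← Finset.sum_neg_distrib]
    refine Finset.sum_congr rfl fun j _ => ?_
    ring
  -- the character
  let x' : Fin m → ℝ := fun j => ℓ (Pi.single j 1)
  have hx' : ∀ y, ℓ y = ∑ j, y j * x' j := fun y => by
    rw [LinearMap.pi_apply_eq_sum_univ ℓ y]
    refine Finset.sum_congr rfl fun j _ => ?_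
    rw [smul_eq_mul]
    congr 2
    funext i
    rw [Pi.single_apply]
    simp only [eq_comm]
  let τ' : Fin m → ℂ := fun j => u j * (Real.exp (x' j) : ℂ)
  have hτ'0 : ∀ j, τ' j ≠ 0 := fun j =>
    mul_ne_zero (hu0 j) (by exact_mod_cast (Real.exp_pos _).ne')
  have hτ'm : ∀ β : Fin m → ℕ, ∏ j, τ' j ^ β j =
      (∏ j, u j ^ β j) * (Real.exp (∑ j, (β j : ℝ) * x' j) : ℂ) := by
    intro β
    simp only [τ', mul_pow, Finset.prod_mul_distrib]
    congr 1
    rw [Real.exp_sum, Complex.ofReal_prod]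
    refine Finset.prod_congr rfl fun j _ => ?_
    rw [mul_comm, Real.exp_mul, Real.rpow_natCast]
    push_cast
    rfl
  have hχ : ∀ β b, vec β - vec b ∈ H → Tendsto (fun k => mon β k / mon b k) U
      (𝓝 ((∏ j, τ' j ^ β j) / ∏ j, τ' j ^ b j)) := by
    intro β b h
    have h1 := hℓ' _ h
    have h2 : Tendsto (fun k => (Real.exp (D β b k) : ℂ)) U
        (𝓝 (Real.exp (ℓ (vec β - vec b)) : ℂ)) :=
      (Complex.continuous_ofReal.tendsto _).comp ((Real.continuous_exp.tendsto _).comp h1)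
    have h3 := ((hph β).div (hph b) (hph0 b)).mul h2
    have h4 : (∏ j, u j ^ β j) / (∏ j, u j ^ b j) * (Real.exp (ℓ (vec β - vec b)) : ℂ) =
        (∏ j, τ' j ^ β j) / ∏ j, τ' j ^ b j := by
      rw [hτ'm, hτ'm, hx']
      have h5 : ∑ j, (vec β - vec b) j * x' j =
          ∑ j, (β j : ℝ) * x' j - ∑ j, (b j : ℝ) * x' j := by
        rw [← Finset.sum_sub_distrib]
        refine Finset.sum_congr rfl fun j _ => ?_
        simp only [vec, Pi.sub_apply]
        ring
      rw [h5, Real.exp_sub]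
      push_cast
      rw [mul_div_mul_comm]
    rw [h4] at h3
    exact h3.congr fun k => (hratio β b k).symm
  -- the weights
  let w : Fin m → (Fin m → ℝ) ⧸ H := fun j => H.mkQ (Pi.single j 1)
  have hw : ∀ β : Fin m → ℕ, ∑ j, β j • w j = H.mkQ (vec β) := by
    intro β
    have h1 : vec β = ∑ j, β j • (Pi.single j 1 : Fin m → ℝ) := by
      funext i
      rw [Finset.sum_apply]
      simp only [Pi.smul_apply, Pi.single_apply, vec]
      simp
    rw [h1, map_sum]
    refine Finset.sum_congr rfl fun j _ => ?_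
    rw [map_nsmul]
  have hww : ∀ β b : Fin m → ℕ, ∑ j, β j • w j = ∑ j, b j • w j ↔ vec β - vec b ∈ H := by
    intro β b
    rw [hw, hw, Submodule.mkQ_apply, Submodule.mkQ_apply, Submodule.Quotient.eq]
  -- the set of exponents
  let B : Type := {β : Fin m → ℕ // ∑ j, β j = d}
  have hBfin : Finite B := by
    have h1 : Set.Finite {β : Fin m → ℕ | ∑ j, β j = d} := by
      refine (Set.Finite.pi' (ι := Fin m) (t := fun _ => Set.Iic d) fun _ => Set.finite_Iic d).subset ?_
      intro β hβ j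
      have h2 : ∑ j, β j = d := hβ
      rw [Set.mem_Iic, ← h2]
      exact Finset.single_le_sum (f := β) (fun _ _ => Nat.zero_le _) (Finset.mem_univ j)
    exact h1.to_subtype
  have : Fintype B := Fintype.ofFinite B
  -- the combinations `G_b`
  have hG : ∀ b : B, ∃ a : Fin n → ℂ, ∀ β : B,
      (Tendsto (D β.1 b.1) U atTop → ∑ i, a i * ∏ j, c i j ^ β.1 j = 0) ∧
      (vec β.1 - vec b.1 ∈ H → ∑ i, a i * ∏ j, c i j ^ β.1 j =
        ((∏ j, τ' j ^ b.1 j) / ∏ j, τ' j ^ β.1 j) * φ β.1) := by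
    intro b
    let Bb : Type := {β : B // ¬ Tendsto (D β.1 b.1) U atBot}
    have : Finite Bb := Subtype.finite
    have : Fintype Bb := Fintype.ofFinite Bb
    let Λ : (Fin n → ℂ) →ₗ[ℂ] (Bb → ℂ) :=
      { toFun := fun a β => ∑ i, a i * ∏ j, c i j ^ β.1.1 j
        map_add' := fun a a' => by
          funext β
          simp only [Pi.add_apply, add_mul, Finset.sum_add_distrib]
        map_smul' := fun z a => by
          funext β
          simp only [Pi.smul_apply, smul_eq_mul, Finset.mul_sum, mul_assoc, RingHom.id_apply] }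
    let η : Bb → ℂ := fun β => if Tendsto (D β.1.1 b.1) U atTop then 0 else
      ((∏ j, τ' j ^ b.1 j) / ∏ j, τ' j ^ β.1.1 j) * φ β.1.1
    have hcl : IsClosed (Λ.range : Set (Bb → ℂ)) := Submodule.closed_of_finiteDimensional _
    have hη : η ∈ (Λ.range : Set (Bb → ℂ)) := by
      refine hcl.mem_of_tendsto (b := (U : Filter ι))
        (f := fun k => Λ (fun i => mon b.1 k * lam k i)) ?_
        (Eventually.of_forall fun k => ⟨_, rfl⟩)
      refine tendsto_pi_nhds.mpr fun β => ?_
      have h0 : ∀ k, Λ (fun i => mon b.1 k * lam k i) β = mon b.1 k / mon β.1.1 k *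
          ((∏ j, τ k j ^ β.1.1 j) * ∑ i, lam k i * ∏ j, c i j ^ β.1.1 j) := by
        intro k
        have h1 : (∏ j, τ k j ^ β.1.1 j) = mon β.1.1 k := rfl
        rw [h1, ← mul_assoc, div_mul_cancel₀ _ (hmon0 _ _), Finset.mul_sum]
        change ∑ i, (mon b.1 k * lam k i) * ∏ j, c i j ^ β.1.1 j = _
        exact Finset.sum_congr rfl fun i _ => mul_assoc _ _ _
      simp only [h0]
      simp only [η]
      split_ifs with h
      · have h1 : Tendsto (D b.1 β.1.1) U atBot := by
          refine (tendsto_neg_atTop_atBot.comp h).congr fun k => ?_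
          exact (hDsymm β.1.1 b.1 k).symm
        have h2 := (hD0 _ _ h1).mul (hlim β.1.1 β.1.2)
        rwa [zero_mul] at h2
      · have h1 : vec β.1.1 - vec b.1 ∈ H := by
          rcases tricho U (D β.1.1 b.1) with h1 | h1 | h1
          · exact (memH _).mpr h1
          · exact absurd h1 h
          · exact absurd h1 β.2
        have h2 : vec b.1 - vec β.1.1 ∈ H := by
          rw [← neg_sub]; exact H.neg_mem h1
        exact (hχ _ _ h2).mul (hlim β.1.1 β.1.2)
    obtain ⟨a, ha⟩ := hη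
    refine ⟨a, fun β => ⟨fun h => ?_, fun h => ?_⟩⟩
    · have hnot : ¬ Tendsto (D β.1 b.1) U atBot := fun h' =>
        absurd h' (h.not_tendsto disjoint_atTop_atBot)
      have h1 := congrFun ha (⟨β, hnot⟩ : Bb)
      simp only [η, if_pos h] at h1
      exact h1
    · obtain ⟨C, hC⟩ := (memH _).mp h
      have hnotT : ¬ Tendsto (D β.1 b.1) U atTop := fun h' => by
        have h2 := (h'.eventually_gt_atTop C).and hC
        obtain ⟨k, hk, hk'⟩ := h2.exists
        exact absurd (lt_of_lt_of_le hk (le_abs_self _)) (not_lt.mpr hk')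
      have hnot : ¬ Tendsto (D β.1 b.1) U atBot := fun h' => by
        have h2 := (h'.eventually_lt_atBot (-C)).and hC
        obtain ⟨k, hk, hk'⟩ := h2.exists
        have h3 := (abs_le.mp hk').1
        exact absurd hk (not_lt.mpr h3)
      have h1 := congrFun ha (⟨β, hnot⟩ : Bb)
      simp only [η, if_neg hnotT] at h1
      exact h1
  choose a ha using hG
  -- the weight components
  have hcomp : ∀ b : B, ES m d (n * (2 * (m + 1) * (2 * d + 1)) ^ t)
      (fun β => if ∑ j, β j • w j = ∑ j, b.1 j • w j then φ β else 0) := by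
    intro b
    have hg1 : ES m d n (fun β => ∑ i, a b i * ∏ j, c i j ^ β j) :=
      ⟨a b, c, fun β _ => rfl⟩
    have hg2 := ((ES.one (d := d) τ').mul hg1).const_mul (∏ j, τ' j ^ b.1 j)⁻¹
    rw [one_mul] at hg2
    refine core (w := w) (a := ∑ j, b.1 j • w j) (l := (U : Filter ι)) hg2 (fun β hβ => ?_)
      (fun k β => (mon b.1 k)⁻¹ * ((∏ j, τ k j ^ β j) * ∑ i, a b i * ∏ j, c i j ^ β j))
      (fun k => ?_) (fun β hβ => ?_) ht
    · split_ifs with h
      · rw [((ha b ⟨β, hβ⟩).2 ((hww _ _).mp h))]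
        have h1 : ∏ j, τ' j ^ β j ≠ 0 := Finset.prod_ne_zero_iff.mpr fun j _ =>
          pow_ne_zero _ (hτ'0 j)
        have h2 : ∏ j, τ' j ^ b.1 j ≠ 0 := Finset.prod_ne_zero_iff.mpr fun j _ =>
          pow_ne_zero _ (hτ'0 j)
        field_simp
      · rfl
    · have h1 := ((ES.one (d := d) (τ k)).mul hg1).const_mul (mon b.1 k)⁻¹
      rwa [one_mul] at h1
    · have h0 : ∀ k, (mon b.1 k)⁻¹ * ((∏ j, τ k j ^ β j) * ∑ i, a b i * ∏ j, c i j ^ β j) =
          mon β k / mon b.1 k * ∑ i, a b i * ∏ j, c i j ^ β j := by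
        intro k
        have h1 : (∏ j, τ k j ^ β j) = mon β k := rfl
        rw [h1]; ring
      simp only [h0]
      rcases tricho U (D β b.1) with h1 | h1 | h1
      · have h2 : vec β - vec b.1 ∈ H := (memH _).mpr h1
        rw [if_pos ((hww _ _).mpr h2)]
        have h3 := (hχ _ _ h2).mul_const (∑ i, a b i * ∏ j, c i j ^ β j)
        have h4 : (∏ j, τ' j ^ β j) / (∏ j, τ' j ^ b.1 j) * (∑ i, a b i * ∏ j, c i j ^ β j) =
            φ β := by
          rw [((ha b ⟨β, hβ⟩).2 h2)]
          have h1 : ∏ j, τ' j ^ β j ≠ 0 := Finset.prod_ne_zero_iff.mpr fun j _ =>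
            pow_ne_zero _ (hτ'0 j)
          have h2 : ∏ j, τ' j ^ b.1 j ≠ 0 := Finset.prod_ne_zero_iff.mpr fun j _ =>
            pow_ne_zero _ (hτ'0 j)
          field_simp
        rwa [h4] at h3
      · have h2 : ¬ ∑ j, β j • w j = ∑ j, b.1 j • w j := by
          intro h
          obtain ⟨C, hC⟩ := (memH _).mp ((hww _ _).mp h)
          obtain ⟨k, hk, hk'⟩ := ((h1.eventually_gt_atTop C).and hC).exists
          exact absurd (lt_of_lt_of_le hk (le_abs_self _)) (not_lt.mpr hk')
        rw [if_neg h2, (ha b ⟨β, hβ⟩).1 h1]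
        simp
      · have h2 : ¬ ∑ j, β j • w j = ∑ j, b.1 j • w j := by
          intro h
          obtain ⟨C, hC⟩ := (memH _).mp ((hww _ _).mp h)
          obtain ⟨k, hk, hk'⟩ := ((h1.eventually_lt_atBot (-C)).and hC).exists
          exact absurd hk (not_lt.mpr (abs_le.mp hk').1)
        rw [if_neg h2]
        have h3 := (hD0 _ _ h1).mul_const (∑ i, a b i * ∏ j, c i j ^ β j)
        rwa [zero_mul] at h3
  -- the set of weights of `φ`
  let S : Finset ((Fin m → ℝ) ⧸ H) :=
    (Finset.univ.filter fun β : B => φ β.1 ≠ 0).image fun β => ∑ j, β.1 j • w j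
  have hrep : ∀ v : {v // v ∈ S}, ∃ b : B, φ b.1 ≠ 0 ∧ ∑ j, b.1 j • w j = v.1 := by
    rintro ⟨v, hv⟩
    obtain ⟨b, hb, he⟩ := Finset.mem_image.mp hv
    exact ⟨b, (Finset.mem_filter.mp hb).2, he⟩
  choose rep hrep0 hrepw using hrep
  have hind : LinearIndependent ℂ fun v : {v // v ∈ S} => a (rep v) := by
    rw [Fintype.linearIndependent_iff]
    intro z hz v0
    by_contra hv0
    -- a good index
    have hgood : ∀ᶠ k in (U : Filter ι), ∀ v v' : {v // v ∈ S},
        Tendsto (D (rep v').1 (rep v).1) U atTop ∨ v = v' ∨ D (rep v').1 (rep v).1 k < 0 := by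
      rw [Filter.eventually_all]
      intro v
      rw [Filter.eventually_all]
      intro v'
      rcases tricho U (D (rep v').1 (rep v).1) with h1 | h1 | h1
      · have h2 : v = v' := by
          have h3 := (hww _ _).mpr ((memH _).mpr h1)
          rw [hrepw, hrepw] at h3
          exact Subtype.ext h3.symm
        exact Eventually.of_forall fun k => Or.inr (Or.inl h2)
      · exact Eventually.of_forall fun k => Or.inl h1
      · filter_upwards [h1.eventually_lt_atBot 0] with k hk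
        exact Or.inr (Or.inr hk)
    obtain ⟨k, hk⟩ := hgood.exists
    obtain ⟨v1, hv1, hmax⟩ := Finset.exists_max_image
      (Finset.univ.filter fun v : {v // v ∈ S} => z v ≠ 0) (fun v => pr (vec (rep v).1) k)
      ⟨v0, Finset.mem_filter.mpr ⟨Finset.mem_univ _, hv0⟩⟩
    have hz1 : z v1 ≠ 0 := (Finset.mem_filter.mp hv1).2
    have hDk : ∀ v v' : {v // v ∈ S}, D (rep v').1 (rep v).1 k =
        pr (vec (rep v').1) k - pr (vec (rep v).1) k := fun v v' => by
      simp only [D, pr, Pi.sub_apply, sub_mul, Finset.sum_sub_distrib]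
    have hzero : ∀ v : {v // v ∈ S}, v ≠ v1 → z v ≠ 0 →
        ∑ i, a (rep v) i * ∏ j, c i j ^ (rep v1).1 j = 0 := by
      intro v hne hzv
      refine (ha (rep v) (rep v1)).1 ?_
      rcases hk v v1 with h | h | h
      · exact h
      · exact absurd h hne
      · exfalso
        rw [hDk] at h
        have := hmax v (Finset.mem_filter.mpr ⟨Finset.mem_univ _, hzv⟩)
        linarith
    have h1 : ∑ i, (∑ v, z v • a (rep v)) i * ∏ j, c i j ^ (rep v1).1 j = 0 := by
      rw [hz]; simp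
    have h2 : ∑ i, (∑ v, z v • a (rep v)) i * ∏ j, c i j ^ (rep v1).1 j =
        ∑ v, z v * ∑ i, a (rep v) i * ∏ j, c i j ^ (rep v1).1 j := by
      simp only [Finset.sum_apply, Pi.smul_apply, smul_eq_mul, Finset.sum_mul, Finset.mul_sum]
      rw [Finset.sum_comm]
      refine Finset.sum_congr rfl fun v _ => Finset.sum_congr rfl fun i _ => by ring
    rw [h2, Finset.sum_eq_single v1] at h1
    · have h3 := (ha (rep v1) (rep v1)).2 (by rw [sub_self]; exact H.zero_mem)
      rw [div_self, one_mul] at h3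
      · rw [h3] at h1
        exact (mul_ne_zero hz1 (hrep0 v1)) h1
      · exact Finset.prod_ne_zero_iff.mpr fun j _ => pow_ne_zero _ (hτ'0 j)
    · intro v _ hne
      by_cases hzv : z v = 0
      · rw [hzv, zero_mul]
      · rw [hzero v hne hzv, mul_zero]
    · intro h
      exact absurd (Finset.mem_univ _) h
  have hcard : S.card ≤ n := by
    have h1 := hind.fintype_card_le_finrank
    rw [Fintype.card_coe, Module.finrank_fintype_fun_eq_card, Fintype.card_fin] at h1
    exact h1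
  -- sum of the components
  have hsum := ES.sum S (g := fun v β => if ∑ j, β j • w j = v then φ β else 0)
    (n := n * (2 * (m + 1) * (2 * d + 1)) ^ t) (fun v hv => by
      have h1 := hcomp (rep ⟨v, hv⟩)
      rw [hrepw] at h1
      exact h1)
  refine (hsum.mono (Nat.mul_le_mul_right _ hcard)).congr fun β hβ => ?_
  rw [Finset.sum_ite_eq]
  split_ifs with h
  · rfl
  · by_contra hne
    exact h (Finset.mem_image.mpr ⟨⟨β, hβ⟩, Finset.mem_filter.mpr ⟨Finset.mem_univ _, hne⟩, rfl⟩)

end WTorus
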