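import Pool.Agent.Lib.MP_e00b88_lc.ES

/-!
MP_e00b88_lc: a weight component of a combination of `r` multiplicative functions, if it is a limit
of combinations of `r'` multiplicative functions, is a combination of quasi-polynomially many.
-/

set_option autoImplicit false

open Filter Topology

namespace WTorus

variable {m d : ℕ} {𝔾 : Type*} [AddCommGroup 𝔾]

/-- The `2 ^ |D|` subset sums of `D` are distinct. -/
def Diss (w : Fin m → 𝔾) (D : Finset (Fin m)) : Prop :=
  ∀ A ⊆ D, ∀ A' ⊆ D, ∑ j ∈ A, w j = ∑ j ∈ A', w j → A = A'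

/-- `x` is a difference of two subset sums of `D`. -/
def InSpan (w : Fin m → 𝔾) (D : Finset (Fin m)) (x : 𝔾) : Prop :=
  ∃ A ⊆ D, ∃ A' ⊆ D, x + ∑ j ∈ A, w j = ∑ j ∈ A', w j

theorem diss_insert {w : Fin m → 𝔾} {D : Finset (Fin m)} (h : Diss w D) {i : Fin m}
    (hw : ¬ InSpan w D (w i)) : Diss w (insert i D) := by
  classical
  have key : ∀ A ⊆ insert i D, i ∈ A → ∀ A' ⊆ insert i D, i ∉ A' →
      ∑ j ∈ A, w j ≠ ∑ j ∈ A', w j := by
    intro A hA hi A' hA' hi' he
    refine hw ⟨A.erase i, ?_, A', ?_, ?_⟩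
    · intro j hj
      rcases Finset.mem_insert.mp (hA (Finset.mem_of_mem_erase hj)) with h1 | h1
      · exact absurd h1 (Finset.ne_of_mem_erase hj)
      · exact h1
    · intro j hj
      rcases Finset.mem_insert.mp (hA' hj) with h1 | h1
      · rw [h1] at hj; exact absurd hj hi'
      · exact h1
    · rw [Finset.add_sum_erase _ _ hi, he]
  intro A hA A' hA' he
  by_cases hi : i ∈ A
  · by_cases hi' : i ∈ A'
    · have h1 : A.erase i = A'.erase i := by
        refine h _ ?_ _ ?_ ?_
        · intro j hj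
          rcases Finset.mem_insert.mp (hA (Finset.mem_of_mem_erase hj)) with h1 | h1
          · exact absurd h1 (Finset.ne_of_mem_erase hj)
          · exact h1
        · intro j hj
          rcases Finset.mem_insert.mp (hA' (Finset.mem_of_mem_erase hj)) with h1 | h1
          · exact absurd h1 (Finset.ne_of_mem_erase hj)
          · exact h1
        · have h2 := Finset.add_sum_erase A w hi
          have h3 := Finset.add_sum_erase A' w hi'
          rw [← h2, ← h3] at he
          exact add_left_cancel he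
      rw [← Finset.insert_erase hi, h1, Finset.insert_erase hi']
    · exact absurd he (key A hA hi A' hA' hi')
  · by_cases hi' : i ∈ A'
    · exact absurd he.symm (key A' hA' hi' A hA hi)
    · refine h A ?_ A' ?_ he
      · exact (Finset.subset_insert_iff_of_notMem hi).mp hA
      · exact (Finset.subset_insert_iff_of_notMem hi').mp hA'

theorem InSpan.mono {w : Fin m → 𝔾} {D D' : Finset (Fin m)} {x : 𝔾} (h : InSpan w D x)
    (hD : D ⊆ D') : InSpan w D' x := by
  obtain ⟨A, hA, A', hA', he⟩ := h
  exact ⟨A, hA.trans hD, A', hA'.trans hD, he⟩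

theorem inSpan_of_mem {w : Fin m → 𝔾} {D : Finset (Fin m)} {i : Fin m} (hi : i ∈ D) :
    InSpan w D (w i) :=
  ⟨∅, Finset.empty_subset _, {i}, Finset.singleton_subset_iff.mpr hi, by simp⟩

/-- The exponent `b - 1_A + 1_A'`. -/
private def sh (b : Fin m → ℕ) (A A' : Finset (Fin m)) : Fin m → ℕ := by
  classical
  exact fun j => (b j - if j ∈ A then 1 else 0) + if j ∈ A' then 1 else 0

private theorem sum_sub_ind (b : Fin m → ℕ) (D A : Finset (Fin m)) (hb : ∀ j ∈ D, b j ≠ 0)
    (hA : A ⊆ D) [DecidablePred (· ∈ A)] :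
    ∑ j, (b j - if j ∈ A then 1 else 0) + A.card = ∑ j, b j := by
  have h1 : A.card = ∑ j, if j ∈ A then 1 else 0 := by
    rw [← Finset.sum_filter, Finset.sum_const, smul_eq_mul, mul_one]
    congr 1
    ext j; simp
  rw [h1, ← Finset.sum_add_distrib]
  refine Finset.sum_congr rfl fun j _ => ?_
  split_ifs with h
  · have := hb j (hA h); omega
  · omega

private theorem sh_degree (b : Fin m → ℕ) (D A A' : Finset (Fin m)) (hb : ∀ j ∈ D, b j ≠ 0)
    (hA : A ⊆ D) (hc : A.card = A'.card) : ∑ j, sh b A A' j = ∑ j, b j := by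
  classical
  have h1 : A'.card = ∑ j : Fin m, if j ∈ A' then 1 else 0 := by
    rw [← Finset.sum_filter, Finset.sum_const, smul_eq_mul, mul_one]
    congr 1
    ext j; simp
  have h2 := sum_sub_ind b D A hb hA
  unfold sh
  rw [Finset.sum_add_distrib, ← h2, hc, h1]

private theorem sh_wt (w : Fin m → 𝔾) (b : Fin m → ℕ) (D A A' : Finset (Fin m))
    (hb : ∀ j ∈ D, b j ≠ 0) (hA : A ⊆ D) :
    ∑ j, sh b A A' j • w j + ∑ j ∈ A, w j = ∑ j, b j • w j + ∑ j ∈ A', w j := by
  classical
  have h1 : ∀ S : Finset (Fin m), ∑ j ∈ S, w j = ∑ j : Fin m, (if j ∈ S then 1 else 0 : ℕ) • w j := by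
    intro S
    simp only [ite_smul, one_smul, zero_smul]
    rw [← Finset.sum_filter]
    congr 1
    ext j; simp
  rw [h1 A, h1 A', ← Finset.sum_add_distrib, ← Finset.sum_add_distrib]
  refine Finset.sum_congr rfl fun j _ => ?_
  rw [← add_smul, ← add_smul]
  congr 1
  unfold sh
  by_cases h : j ∈ A
  · have := hb j (hA h)
    simp only [h, if_true]
    omega
  · simp only [h, if_false]
    omega

/-- Dissociated sets of variables contained in a monomial of a form of small border rank are
small. -/
theorem diss_card {n : ℕ} {w : Fin m → 𝔾} {a : 𝔾} {φ : (Fin m → ℕ) → ℂ}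
    (hφ : ∀ β : Fin m → ℕ, ∑ j, β j = d → φ β ≠ 0 → ∑ j, β j • w j = a)
    {ι : Type*} {l : Filter ι} [l.NeBot]
    (ψ : ι → (Fin m → ℕ) → ℂ) (hψ : ∀ k, ES m d n (ψ k))
    (hlim : ∀ β : Fin m → ℕ, ∑ j, β j = d → Tendsto (fun k => ψ k β) l (𝓝 (φ β)))
    {b : Fin m → ℕ} (hb : ∑ j, b j = d) (hb0 : φ b ≠ 0) {D : Finset (Fin m)}
    (hD : ∀ j ∈ D, b j ≠ 0) (hdiss : Diss w D) : 2 ^ D.card ≤ n * (D.card + 1) := by
  classical
  let I : Type := {A : Finset (Fin m) // A ∈ D.powerset}
  let M : ((Fin m → ℕ) → ℂ) → Matrix I I ℂ := fun g => Matrix.of fun A A' =>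
    if A.1.card = A'.1.card then g (sh b A.1 A'.1) else 0
  have hdet : Tendsto (fun k => (M (ψ k)).det) l (𝓝 (M φ).det) := by
    have h1 : Tendsto (fun k => M (ψ k)) l (𝓝 (M φ)) := by
      refine tendsto_pi_nhds.mpr fun A => tendsto_pi_nhds.mpr fun A' => ?_
      simp only [M, Matrix.of_apply]
      split_ifs with h
      · refine hlim _ ?_
        rw [sh_degree b D A.1 A'.1 hD (Finset.mem_powerset.mp A.2) h, hb]
      · exact tendsto_const_nhds
    exact ((Continuous.matrix_det continuous_id).tendsto (M φ)).comp h1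
  have hdiag : M φ = Matrix.diagonal fun _ => φ b := by
    ext A A'
    simp only [M, Matrix.of_apply, Matrix.diagonal_apply]
    have hself : ∀ A : I, sh b A.1 A.1 = b := by
      intro A
      funext j
      unfold sh
      by_cases h : j ∈ A.1
      · have := hD j (Finset.mem_powerset.mp A.2 h)
        simp only [h, if_true]
        omega
      · simp only [h, if_false]
        omega
    by_cases hAA : A = A'
    · subst hAA
      rw [if_pos rfl, if_pos rfl, hself]
    · rw [if_neg hAA]
      split_ifs with h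
      · by_contra hne
        have h1 := hφ _ (by rw [sh_degree b D A.1 A'.1 hD (Finset.mem_powerset.mp A.2) h, hb]) hne
        have h2 := sh_wt w b D A.1 A'.1 hD (Finset.mem_powerset.mp A.2)
        rw [h1, hφ b hb hb0] at h2
        exact hAA (Subtype.ext (hdiss _ (Finset.mem_powerset.mp A.2) _
          (Finset.mem_powerset.mp A'.2) (add_left_cancel h2)))
      · rfl
  have hne : (M φ).det ≠ 0 := by
    rw [hdiag, Matrix.det_diagonal]
    exact Finset.prod_ne_zero_iff.mpr fun _ _ => hb0
  obtain ⟨k, hk⟩ := (hdet.eventually_ne hne).exists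
  obtain ⟨c, L, hL⟩ := hψ k
  -- factorisation
  let P : Matrix I (Fin n × Fin (D.card + 1)) ℂ := Matrix.of fun A p =>
    if A.1.card = (p.2 : ℕ) then c p.1 * ∏ j, L p.1 j ^ (b j - if j ∈ A.1 then 1 else 0) else 0
  let Q : Matrix (Fin n × Fin (D.card + 1)) I ℂ := Matrix.of fun p A' =>
    if A'.1.card = (p.2 : ℕ) then ∏ j, L p.1 j ^ (if j ∈ A'.1 then 1 else 0) else 0
  have hPQ : M (ψ k) = P * Q := by
    ext A A'
    simp only [M, P, Q, Matrix.of_apply, Matrix.mul_apply, Fintype.sum_prod_type]
    have hcA : A.1.card < D.card + 1 :=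
      Nat.lt_succ_of_le (Finset.card_le_card (Finset.mem_powerset.mp A.2))
    split_ifs with h
    · rw [hL _ (by rw [sh_degree b D A.1 A'.1 hD (Finset.mem_powerset.mp A.2) h, hb])]
      refine Finset.sum_congr rfl fun i _ => ?_
      rw [Finset.sum_eq_single (⟨A.1.card, hcA⟩ : Fin (D.card + 1))]
      · rw [if_pos rfl, if_pos h.symm, mul_assoc, ← Finset.prod_mul_distrib]
        congr 1
        refine Finset.prod_congr rfl fun j _ => ?_
        rw [← pow_add]
        rfl
      · intro p _ hp
        rw [if_neg, zero_mul]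
        intro h1
        exact hp (Fin.ext h1.symm)
      · intro h1
        exact absurd (Finset.mem_univ _) h1
    · refine (Finset.sum_eq_zero fun i _ => Finset.sum_eq_zero fun p _ => ?_).symm
      by_cases h1 : A.1.card = (p : ℕ)
      · rw [if_neg (c := A'.1.card = (p : ℕ)), mul_zero]
        intro h2
        exact h (h1.trans h2.symm)
      · rw [if_neg h1, zero_mul]
  have hrank : (M (ψ k)).rank = Fintype.card I := by
    apply Matrix.rank_of_isUnit
    rw [Matrix.isUnit_iff_isUnit_det]
    exact isUnit_iff_ne_zero.mpr hk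
  have h1 : (M (ψ k)).rank ≤ n * (D.card + 1) := by
    rw [hPQ]
    refine (Matrix.rank_mul_le_left P Q).trans ((Matrix.rank_le_card_width P).trans ?_)
    simp
  rw [hrank] at h1
  have h2 : Fintype.card I = 2 ^ D.card := by
    change Fintype.card {A : Finset (Fin m) // A ∈ D.powerset} = 2 ^ D.card
    rw [Fintype.card_coe, Finset.card_powerset]
  rwa [h2] at h1

/-- The part of `φ` on the exponents which are positive on `D` and supported on `V`. -/
noncomputable def part (φ : (Fin m → ℕ) → ℂ) (D V : Finset (Fin m)) : (Fin m → ℕ) → ℂ := by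
  classical
  exact fun β => if (∀ j ∈ D, β j ≠ 0) ∧ ∀ j, j ∉ V → β j = 0 then φ β else 0

/-- The recursion. -/
theorem rec_step {w : Fin m → 𝔾} {φ : (Fin m → ℕ) → ℂ} {t B : ℕ}
    (hbig : ∀ D : Finset (Fin m), Diss w D → D.card = t + 1 → ∀ b : Fin m → ℕ, ∑ j, b j = d →
      (∀ j ∈ D, b j ≠ 0) → φ b = 0)
    (hleaf : ∀ D Φ : Finset (Fin m), (∀ i ∈ Φ, InSpan w D (w i)) → D.card ≤ t →
      ES m d B (part φ D (D ∪ Φ))) (U : Finset (Fin m)) :
    ∀ (k : ℕ) (D Φ : Finset (Fin m)), Diss w D → (∀ i ∈ Φ, InSpan w D (w i)) → D.card + k = t →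
      Disjoint U (D ∪ Φ) → ES m d (B * (U.card + 1) ^ k) (part φ D (D ∪ Φ ∪ U)) := by
  classical
  induction U using Finset.induction_on with
  | empty =>
    intro k D Φ hD hΦ hk _
    simpa using hleaf D Φ hΦ (by omega)
  | insert i U hi ih =>
    intro k D Φ hD hΦ hk hdis
    have hdU : Disjoint U (D ∪ Φ) := hdis.mono_left (Finset.subset_insert i U)
    have hiDΦ : i ∉ D ∪ Φ := Finset.disjoint_left.mp hdis (Finset.mem_insert_self i U)
    have hiD : i ∉ D := fun h => hiDΦ (Finset.mem_union_left _ h)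
    have hiΦ : i ∉ Φ := fun h => hiDΦ (Finset.mem_union_right _ h)
    rw [Finset.card_insert_of_notMem hi]
    by_cases hs : InSpan w D (w i)
    · have h1 := ih k D (insert i Φ) hD (by
        intro j hj
        rcases Finset.mem_insert.mp hj with rfl | hj
        · exact hs
        · exact hΦ j hj) hk (by
        rw [Finset.disjoint_left]
        intro j hj hj'
        rw [Finset.mem_union, Finset.mem_insert] at hj'
        rcases hj' with h | h | h
        · exact Finset.disjoint_left.mp hdU hj (Finset.mem_union_left _ h)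
        · rw [h] at hj; exact hi hj
        · exact Finset.disjoint_left.mp hdU hj (Finset.mem_union_right _ h))
      have h2 : D ∪ insert i Φ ∪ U = D ∪ Φ ∪ insert i U := by
        ext j
        simp only [Finset.mem_union, Finset.mem_insert]
        tauto
      rw [h2] at h1
      refine h1.mono ?_
      exact Nat.mul_le_mul_left _ (Nat.pow_le_pow_left (Nat.le_succ _) _)
    · have hD' : Diss w (insert i D) := diss_insert hD hs
      have hsplit : ∀ β : Fin m → ℕ, part φ D (D ∪ Φ ∪ insert i U) β =
          part φ D (D ∪ Φ ∪ U) β + part φ (insert i D) (insert i D ∪ Φ ∪ U) β := by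
        intro β
        unfold part
        by_cases hβ : β i = 0
        · have h1 : ¬ ((∀ j ∈ insert i D, β j ≠ 0) ∧ ∀ j, j ∉ insert i D ∪ Φ ∪ U → β j = 0) := by
            intro h
            exact h.1 i (Finset.mem_insert_self i D) hβ
          rw [if_neg h1, add_zero]
          have h2 : (∀ j, j ∉ D ∪ Φ ∪ insert i U → β j = 0) ↔
              (∀ j, j ∉ D ∪ Φ ∪ U → β j = 0) := by
            constructor
            · intro h j hj
              by_cases hji : j = i
              · rw [hji]; exact hβ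
              · refine h j ?_
                simp only [Finset.mem_union, Finset.mem_insert] at hj ⊢
                tauto
            · intro h j hj
              refine h j ?_
              simp only [Finset.mem_union, Finset.mem_insert] at hj ⊢
              tauto
          by_cases h5 : (∀ j ∈ D, β j ≠ 0) ∧ ∀ j, j ∉ D ∪ Φ ∪ U → β j = 0
          · rw [if_pos h5, if_pos ⟨h5.1, h2.mpr h5.2⟩]
          · rw [if_neg h5, if_neg (fun h => h5 ⟨h.1, h2.mp h.2⟩)]
        · have h1 : ¬ ((∀ j ∈ D, β j ≠ 0) ∧ ∀ j, j ∉ D ∪ Φ ∪ U → β j = 0) := by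
            intro h
            refine hβ (h.2 i ?_)
            simp only [Finset.mem_union] at hiDΦ ⊢
            tauto
          rw [if_neg h1, zero_add]
          have h2 : ((∀ j ∈ D, β j ≠ 0) ∧ ∀ j, j ∉ D ∪ Φ ∪ insert i U → β j = 0) ↔
              ((∀ j ∈ insert i D, β j ≠ 0) ∧ ∀ j, j ∉ insert i D ∪ Φ ∪ U → β j = 0) := by
            constructor
            · rintro ⟨h3, h4⟩
              refine ⟨?_, ?_⟩
              · intro j hj
                rcases Finset.mem_insert.mp hj with rfl | hj
                · exact hβ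
                · exact h3 j hj
              · intro j hj
                refine h4 j ?_
                simp only [Finset.mem_union, Finset.mem_insert] at hj ⊢
                tauto
            · rintro ⟨h3, h4⟩
              refine ⟨fun j hj => h3 j (Finset.mem_insert_of_mem hj), ?_⟩
              intro j hj
              refine h4 j ?_
              simp only [Finset.mem_union, Finset.mem_insert] at hj ⊢
              tauto
          by_cases h5 : (∀ j ∈ D, β j ≠ 0) ∧ ∀ j, j ∉ D ∪ Φ ∪ insert i U → β j = 0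
          · rw [if_pos h5, if_pos (h2.mp h5)]
          · rw [if_neg h5, if_neg (fun h => h5 (h2.mpr h))]
      have h1 := ih k D Φ hD hΦ hk hdU
      cases k with
      | zero =>
        simp only [pow_zero, mul_one] at h1 ⊢
        refine h1.congr fun β hβ => ?_
        rw [hsplit β]
        have : part φ (insert i D) (insert i D ∪ Φ ∪ U) β = 0 := by
          unfold part
          split_ifs with h
          · exact hbig (insert i D) hD' (by rw [Finset.card_insert_of_notMem hiD]; omega) β hβ h.1
          · rfl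
        rw [this, add_zero]
      | succ k =>
        have h2 := ih k (insert i D) Φ hD' (fun j hj => (hΦ j hj).mono (Finset.subset_insert i D))
          (by rw [Finset.card_insert_of_notMem hiD]; omega) (by
            rw [Finset.disjoint_left]
            intro j hj hj'
            rw [Finset.mem_union, Finset.mem_insert] at hj'
            rcases hj' with (h | h) | h
            · rw [h] at hj; exact hi hj
            · exact Finset.disjoint_left.mp hdU hj (Finset.mem_union_left _ h)
            · exact Finset.disjoint_left.mp hdU hj (Finset.mem_union_right _ h))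
        refine ((h1.add h2).congr fun β _ => hsplit β).mono ?_
        rw [← Nat.mul_add]
        refine Nat.mul_le_mul_left _ ?_
        have h3 : (U.card + 1) ^ k ≤ (U.card + 1 + 1) ^ k := Nat.pow_le_pow_left (Nat.le_succ _) _
        calc (U.card + 1) ^ (k + 1) + (U.card + 1) ^ k
            = (U.card + 1 + 1) * (U.card + 1) ^ k := by ring
          _ ≤ (U.card + 1 + 1) * (U.card + 1 + 1) ^ k := Nat.mul_le_mul_left _ h3
          _ = (U.card + 1 + 1) ^ (k + 1) := by ring

/-- The leaves of the recursion. -/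
theorem leaf {n : ℕ} {w : Fin m → 𝔾} {a : 𝔾} {g : (Fin m → ℕ) → ℂ} (hg : ES m d n g)
    {φ : (Fin m → ℕ) → ℂ} [DecidableEq 𝔾]
    (hφ : ∀ β : Fin m → ℕ, ∑ j, β j = d → φ β = if ∑ j, β j • w j = a then g β else 0)
    (D Φ : Finset (Fin m)) (hΦ : ∀ i ∈ Φ, InSpan w D (w i)) :
    ES m d (n * (2 * (2 * d + 1)) ^ D.card) (part φ D (D ∪ Φ)) := by
  classical
  have hspan : ∀ i ∈ D ∪ Φ, InSpan w D (w i) := by
    intro i hi
    rcases Finset.mem_union.mp hi with h | h
    · exact inSpan_of_mem h
    · exact hΦ i h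
  -- the lifted weights
  have hlift : ∀ i : Fin m, ∃ e : Fin m → ℤ, (∀ j, |e j| ≤ 1) ∧
      (i ∈ D ∪ Φ → w i = ∑ j ∈ D, e j • w j) := by
    intro i
    by_cases hi : i ∈ D ∪ Φ
    · obtain ⟨A, hA, A', hA', he⟩ := hspan i hi
      refine ⟨fun j => (if j ∈ A' then 1 else 0) - (if j ∈ A then 1 else 0), ?_, fun _ => ?_⟩
      · intro j
        dsimp only
        split_ifs <;> simp
      · have h1 : ∀ S ⊆ D, ∑ j ∈ S, w j = ∑ j ∈ D, (if j ∈ S then 1 else 0 : ℤ) • w j := by
          intro S hS
          simp only [ite_smul, one_smul, zero_smul]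
          rw [← Finset.sum_filter, Finset.filter_mem_eq_inter, Finset.inter_eq_right.mpr hS]
        simp only [sub_smul, Finset.sum_sub_distrib]
        rw [← h1 A' hA', ← h1 A hA, ← he]
        abel
    · exact ⟨fun _ => 0, by simp, fun h => absurd h hi⟩
  choose e he1 he2 using hlift
  let G : Type := {j // j ∈ D} → ZMod (2 * d + 1)
  have : NeZero (2 * d + 1) := ⟨by omega⟩
  let eG : Fin m → G := fun i j => ((e i j : ℤ) : ZMod (2 * d + 1))
  let h : G → ℂ := fun v => if ∑ j : {j // j ∈ D}, (v j).valMinAbs • w j = a then 1 else 0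
  have hG : Fintype.card G = (2 * d + 1) ^ D.card := by
    simp [G, ZMod.card]
  have hch := ES.char (m := m) (d := d) eG h
  rw [hG] at hch
  have hall := ((hg.mul (ES.supp (m := m) (d := d) (D ∪ Φ))).mul (ES.pos (m := m) (d := d) D)).mul
    hch
  have hcount : n * 1 * 2 ^ D.card * (2 * d + 1) ^ D.card = n * (2 * (2 * d + 1)) ^ D.card := by
    rw [mul_pow]; ring
  rw [hcount] at hall
  refine hall.congr fun β hβ => ?_
  unfold part
  by_cases h1 : ∀ j, j ∉ D ∪ Φ → β j = 0
  swap
  · rw [if_neg (fun h => h1 h.2), if_neg h1]; ring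
  by_cases h2 : ∀ j ∈ D, β j ≠ 0
  swap
  · rw [if_neg (fun h => h2 h.1), if_neg h2]; ring
  rw [if_pos ⟨h2, h1⟩, if_pos h1, if_pos h2, mul_one, mul_one, hφ β hβ]
  have hval : ∀ j : {j // j ∈ D}, ((∑ i, β i • eG i) j).valMinAbs = ∑ i, (β i : ℤ) * e i j := by
    intro j
    rw [ZMod.valMinAbs_spec]
    refine ⟨?_, ?_⟩
    · rw [Finset.sum_apply]
      push_cast
      refine Finset.sum_congr rfl fun i _ => ?_
      rw [Pi.smul_apply, nsmul_eq_mul]
    · have h3 : |∑ i, (β i : ℤ) * e i j| ≤ d := by
        calc |∑ i, (β i : ℤ) * e i j| ≤ ∑ i, |(β i : ℤ) * e i j| := Finset.abs_sum_le_sum_abs _ _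
          _ ≤ ∑ i, (β i : ℤ) := by
            refine Finset.sum_le_sum fun i _ => ?_
            rw [abs_mul, Nat.abs_cast]
            calc (β i : ℤ) * |e i j| ≤ (β i : ℤ) * 1 :=
                  mul_le_mul_of_nonneg_left (he1 i j) (by positivity)
              _ = β i := mul_one _
          _ = d := by exact_mod_cast hβ
      have h4 := abs_le.mp h3
      rw [Set.mem_Ioc]
      push_cast
      omega
  have hwt : ∑ j : {j // j ∈ D}, ((∑ i, β i • eG i) j).valMinAbs • w j = ∑ j, β j • w j := by
    calc ∑ j : {j // j ∈ D}, ((∑ i, β i • eG i) j).valMinAbs • w j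
        = ∑ j : {j // j ∈ D}, (∑ i, (β i : ℤ) * e i j) • w j :=
          Finset.sum_congr rfl fun j _ => by rw [hval j]
      _ = ∑ j ∈ D, (∑ i, (β i : ℤ) * e i j) • w j :=
          Finset.sum_coe_sort D fun j => (∑ i, (β i : ℤ) * e i j) • w j
      _ = ∑ i, (β i : ℤ) • ∑ j ∈ D, e i j • w j := by
          simp only [Finset.sum_smul, Finset.smul_sum, mul_smul]
          exact Finset.sum_comm
      _ = ∑ i, β i • w i := by
          refine Finset.sum_congr rfl fun i _ => ?_
          by_cases hi : i ∈ D ∪ Φ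
          · rw [← he2 i hi, natCast_zsmul]
          · rw [h1 i hi]; simp
  simp only [h, hwt]
  split_ifs <;> simp

/-- MAIN COMBINATORIAL THEOREM. -/
theorem core {n n' t : ℕ} {w : Fin m → 𝔾} {a : 𝔾} {g : (Fin m → ℕ) → ℂ} (hg : ES m d n g)
    {φ : (Fin m → ℕ) → ℂ} [DecidableEq 𝔾]
    (hφ : ∀ β : Fin m → ℕ, ∑ j, β j = d → φ β = if ∑ j, β j • w j = a then g β else 0)
    {ι : Type*} {l : Filter ι} [l.NeBot]
    (ψ : ι → (Fin m → ℕ) → ℂ) (hψ : ∀ k, ES m d n' (ψ k))
    (hlim : ∀ β : Fin m → ℕ, ∑ j, β j = d → Tendsto (fun k => ψ k β) l (𝓝 (φ β)))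
    (ht : n' * (t + 2) < 2 ^ (t + 1)) : ES m d (n * (2 * (m + 1) * (2 * d + 1)) ^ t) φ := by
  classical
  have hbig : ∀ D : Finset (Fin m), Diss w D → D.card = t + 1 → ∀ b : Fin m → ℕ, ∑ j, b j = d →
      (∀ j ∈ D, b j ≠ 0) → φ b = 0 := by
    intro D hD hc b hb hpos
    by_contra hne
    have h1 := diss_card (w := w) (a := a) (fun β hβ h => by
      by_contra h2
      rw [hφ β hβ, if_neg h2] at h
      exact h rfl) ψ hψ hlim hb hne hpos hD
    rw [hc] at h1
    have h2 : n' * (t + 1 + 1) = n' * (t + 2) := by ring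
    omega
  have hleaf : ∀ D Φ : Finset (Fin m), (∀ i ∈ Φ, InSpan w D (w i)) → D.card ≤ t →
      ES m d (n * (2 * (2 * d + 1)) ^ t) (part φ D (D ∪ Φ)) := by
    intro D Φ hΦ hc
    refine (leaf hg hφ D Φ hΦ).mono (Nat.mul_le_mul_left _ ?_)
    exact Nat.pow_le_pow_right (by omega) hc
  have h1 := rec_step hbig hleaf Finset.univ t ∅ ∅ (by
    intro A hA A' hA' _
    rw [Finset.subset_empty.mp hA, Finset.subset_empty.mp hA']) (by simp) (by simp) (by simp)
  have h2 : n * (2 * (2 * d + 1)) ^ t * ((Finset.univ : Finset (Fin m)).card + 1) ^ t =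
      n * (2 * (m + 1) * (2 * d + 1)) ^ t := by
    rw [Finset.card_univ, Fintype.card_fin, mul_assoc, ← mul_pow]
    congr 2
    ring
  rw [h2] at h1
  refine h1.congr fun β _ => ?_
  unfold part
  rw [if_pos]
  exact ⟨by simp, by simp⟩

end WTorus
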