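import Mathlib

/-!
MP_e00b88_lc: functions on the exponents of degree `d` which are sums of `n` multiplicative
functions (normalised coefficient functions of forms of Waring rank at most `n`), and the
extraction of a weight component of small border rank.
-/

set_option autoImplicit false

open Filter Topology

namespace WTorus

/-- On the exponents of degree `d`, `g` is a combination of `n` multiplicative functions. -/
def ES (m d n : ℕ) (g : (Fin m → ℕ) → ℂ) : Prop :=
  ∃ (c : Fin n → ℂ) (L : Fin n → Fin m → ℂ), ∀ β : Fin m → ℕ, ∑ j, β j = d →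
    g β = ∑ i, c i * ∏ j, L i j ^ β j

variable {m d : ℕ}

theorem ES.congr {n : ℕ} {g g' : (Fin m → ℕ) → ℂ} (h : ES m d n g)
    (hg : ∀ β : Fin m → ℕ, ∑ j, β j = d → g' β = g β) : ES m d n g' := by
  obtain ⟨c, L, h⟩ := h
  exact ⟨c, L, fun β hβ => by rw [hg β hβ, h β hβ]⟩

theorem ES.of_fintype {ι : Type*} [Fintype ι] {g : (Fin m → ℕ) → ℂ} (c : ι → ℂ)
    (L : ι → Fin m → ℂ) (h : ∀ β : Fin m → ℕ, ∑ j, β j = d → g β = ∑ i, c i * ∏ j, L i j ^ β j) :
    ES m d (Fintype.card ι) g := by
  refine ⟨fun i => c ((Fintype.equivFin ι).symm i), fun i => L ((Fintype.equivFin ι).symm i),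
    fun β hβ => ?_⟩
  rw [h β hβ]
  exact (Equiv.sum_comp (Fintype.equivFin ι).symm fun i => c i * ∏ j, L i j ^ β j).symm

theorem ES.zero (n : ℕ) : ES m d n (fun _ => 0) :=
  ⟨fun _ => 0, fun _ _ => 0, fun β _ => by simp⟩

theorem ES.add {n n' : ℕ} {g g' : (Fin m → ℕ) → ℂ} (h : ES m d n g) (h' : ES m d n' g') :
    ES m d (n + n') (fun β => g β + g' β) := by
  obtain ⟨c, L, h⟩ := h
  obtain ⟨c', L', h'⟩ := h'
  have := ES.of_fintype (m := m) (d := d) (g := fun β => g β + g' β)
    (Sum.elim c c') (Sum.elim L L') (fun β hβ => by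
      rw [Fintype.sum_sum_type, h β hβ, h' β hβ]
      rfl)
  simpa using this

theorem ES.mono {n n' : ℕ} {g : (Fin m → ℕ) → ℂ} (h : ES m d n g) (hn : n ≤ n') :
    ES m d n' g := by
  have h1 := h.add (ES.zero (m := m) (d := d) (n' - n))
  rw [Nat.add_sub_cancel' hn] at h1
  exact h1.congr fun β _ => by simp

theorem ES.mul {n n' : ℕ} {g g' : (Fin m → ℕ) → ℂ} (h : ES m d n g) (h' : ES m d n' g') :
    ES m d (n * n') (fun β => g β * g' β) := by
  obtain ⟨c, L, h⟩ := h
  obtain ⟨c', L', h'⟩ := h'
  have := ES.of_fintype (m := m) (d := d) (g := fun β => g β * g' β)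
    (fun p : Fin n × Fin n' => c p.1 * c' p.2) (fun p j => L p.1 j * L' p.2 j) (fun β hβ => by
      rw [Fintype.sum_prod_type, h β hβ, h' β hβ, Finset.sum_mul_sum]
      refine Finset.sum_congr rfl fun i _ => Finset.sum_congr rfl fun i' _ => ?_
      simp only [mul_pow, Finset.prod_mul_distrib]
      ring)
  simpa using this

theorem ES.const_mul {n : ℕ} {g : (Fin m → ℕ) → ℂ} (h : ES m d n g) (a : ℂ) :
    ES m d n (fun β => a * g β) := by
  obtain ⟨c, L, h⟩ := h
  exact ⟨fun i => a * c i, L, fun β hβ => by
    simp only [h β hβ, Finset.mul_sum, mul_assoc]⟩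

theorem ES.sum {ι : Type*} {n : ℕ} (s : Finset ι) {g : ι → (Fin m → ℕ) → ℂ}
    (h : ∀ i ∈ s, ES m d n (g i)) : ES m d (s.card * n) (fun β => ∑ i ∈ s, g i β) := by
  classical
  induction s using Finset.induction_on with
  | empty => exact (ES.zero _).congr fun β _ => by simp
  | insert a s ha ih =>
    have h1 := (h a (Finset.mem_insert_self a s)).add
      (ih fun i hi => h i (Finset.mem_insert_of_mem hi))
    rw [Finset.card_insert_of_notMem ha, Nat.succ_mul, Nat.add_comm]
    exact h1.congr fun β _ => by rw [Finset.sum_insert ha]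

/-- A multiplicative function. -/
theorem ES.one (L : Fin m → ℂ) : ES m d 1 (fun β => ∏ j, L j ^ β j) :=
  ⟨fun _ => 1, fun _ => L, fun β _ => by simp⟩

/-- The indicator function of the exponents supported on `V`. -/
theorem ES.supp (V : Finset (Fin m)) :
    ES m d 1 (fun β => if ∀ j, j ∉ V → β j = 0 then 1 else 0) := by
  classical
  refine (ES.one (fun j => if j ∈ V then (1 : ℂ) else 0)).congr fun β _ => ?_
  split_ifs with h
  · refine (Finset.prod_eq_one fun j _ => ?_).symm
    by_cases hj : j ∈ V
    · simp [hj]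
    · simp [hj, h j hj]
  · push Not at h
    obtain ⟨j, hj, hβ⟩ := h
    refine (Finset.prod_eq_zero (Finset.mem_univ j) ?_).symm
    simp [hj, hβ]

/-- The indicator function of the exponents which are positive on `D`. -/
theorem ES.pos (D : Finset (Fin m)) :
    ES m d (2 ^ D.card) (fun β => if ∀ j ∈ D, β j ≠ 0 then 1 else 0) := by
  classical
  induction D using Finset.induction_on with
  | empty =>
    refine (ES.one (fun _ => (1 : ℂ))).congr fun β _ => by simp
  | insert a D ha ih =>
    have h1 : ES m d 2 (fun β => if β a ≠ 0 then 1 else 0) := by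
      refine ((ES.one (fun _ => (1 : ℂ))).add
        ((ES.supp (m := m) (d := d) (Finset.univ.erase a)).const_mul (-1))).congr fun β _ => ?_
      by_cases hβ : β a = 0
      · have : ∀ j, j ∉ Finset.univ.erase a → β j = 0 := by
          intro j hj
          have : j = a := by simpa using hj
          rw [this]; exact hβ
        simp [hβ]
      · have : ¬ ∀ j, j ∉ Finset.univ.erase a → β j = 0 := by
          intro h
          exact hβ (h a (by simp))
        simp [hβ]
    have h2 := h1.mul ih
    rw [Finset.card_insert_of_notMem ha, pow_succ, mul_comm]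
    refine h2.congr fun β _ => ?_
    by_cases hβ : β a ≠ 0
    · by_cases h3 : ∀ j ∈ D, β j ≠ 0
      · rw [if_pos hβ, if_pos h3, if_pos, one_mul]
        intro j hj
        rcases Finset.mem_insert.mp hj with rfl | hj
        · exact hβ
        · exact h3 j hj
      · rw [if_neg h3, if_neg, mul_zero]
        intro h4
        exact h3 fun j hj => h4 j (Finset.mem_insert_of_mem hj)
    · rw [if_neg hβ, if_neg, zero_mul]
      intro h4
      exact hβ (h4 a (Finset.mem_insert_self a D))

private theorem map_sum_prod {G : Type} [AddCommGroup G] (ψ : AddChar G ℂ) (s : Finset (Fin m))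
    (f : Fin m → G) : ψ (∑ j ∈ s, f j) = ∏ j ∈ s, ψ (f j) := by
  classical
  induction s using Finset.induction_on with
  | empty => simp
  | insert a s ha ih => rw [Finset.sum_insert ha, Finset.prod_insert ha, AddChar.map_add_eq_mul, ih]

/-- Functions of the class of the exponent in a finite abelian group. -/
theorem ES.char {G : Type} [AddCommGroup G] [Fintype G] (e : Fin m → G) (h : G → ℂ) :
    ES m d (Fintype.card G) (fun β => h (∑ j, β j • e j)) := by
  classical
  have hcard : Fintype.card (AddChar G ℂ) = Fintype.card G := AddChar.card_eq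
  rw [← hcard]
  refine ES.of_fintype (fun ψ : AddChar G ℂ => (AddChar.complexBasis G).repr h ψ)
    (fun ψ j => ψ (e j)) fun β _ => ?_
  have h1 := congrFun ((AddChar.complexBasis G).sum_repr h) (∑ j, β j • e j)
  rw [← h1, Finset.sum_apply]
  refine Finset.sum_congr rfl fun ψ _ => ?_
  rw [Pi.smul_apply, AddChar.complexBasis_apply, smul_eq_mul, map_sum_prod]
  congr 1
  refine Finset.prod_congr rfl fun j _ => ?_
  rw [AddChar.map_nsmul_eq_pow]

end WTorus
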