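import Pool.Agent.Lib.MP_e00b88_lc.Clos

/-!
MP_e00b88_lc: limits of combinations of arbitrarily many multiplicative functions on the diagonal
translates of a fixed union of polynomially parametrised varieties.
-/

set_option autoImplicit false

open Filter Topology

namespace WTorus

variable {m d : ℕ}

theorem clos {n t : ℕ} (c : Fin n → Fin m → ℂ) {ι : Type*} (l : Filter ι) [l.NeBot]
    (τ : ι → Fin m → ℂ) (lam : ι → Fin n → ℂ) (φ : (Fin m → ℕ) → ℂ)
    (hlim : ∀ β : Fin m → ℕ, ∑ j, β j = d → Tendsto (fun k =>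
      ∑ i, lam k i * ∏ j, (τ k j * c i j) ^ β j) l (𝓝 (φ β)))
    (ht : n * (t + 2) < 2 ^ (t + 1)) :
    ES m d (n * (n * (2 * (m + 1) * (2 * d + 1)) ^ t)) φ := by
  classical
  let U : Ultrafilter ι := Ultrafilter.of l
  have hU : (U : Filter ι) ≤ l := Ultrafilter.of_le l
  let τ1 : ι → Fin m → ℂ := fun k j => if τ k j = 0 then 1 else τ k j
  let c1 : Fin n → Fin m → ℂ := fun i j =>
    if ∀ᶠ k in (U : Filter ι), τ k j = 0 then 0 else c i j
  have hτ1 : ∀ k j, τ1 k j ≠ 0 := fun k j => by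
    simp only [τ1]
    split_ifs with h
    · exact one_ne_zero
    · exact h
  have hev : ∀ᶠ k in (U : Filter ι), ∀ j, ∀ i, τ1 k j * c1 i j = τ k j * c i j := by
    rw [Filter.eventually_all]
    intro j
    by_cases h : ∀ᶠ k in (U : Filter ι), τ k j = 0
    · filter_upwards [h] with k hk i
      simp only [c1, if_pos h, hk]
      simp
    · filter_upwards [Ultrafilter.eventually_not.mpr h] with k hk i
      simp only [c1, if_neg h, τ1, if_neg hk]
  refine clos_aux c1 U τ1 hτ1 lam φ (fun β hβ => ?_) ht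
  refine ((hlim β hβ).mono_left hU).congr' ?_
  filter_upwards [hev] with k hk
  rw [Finset.mul_sum]
  refine Finset.sum_congr rfl fun i _ => ?_
  have h1 : ∏ j, (τ k j * c i j) ^ β j = (∏ j, τ1 k j ^ β j) * ∏ j, c1 i j ^ β j := by
    rw [← Finset.prod_mul_distrib]
    refine Finset.prod_congr rfl fun j _ => ?_
    rw [← mul_pow, hk j i]
  rw [h1]; ring

/-- Lagrange interpolation at the points `0, …, N`. -/
noncomputable def lag (N : ℕ) (a : Fin (N + 1)) (x : ℂ) : ℂ :=
  (Lagrange.basis Finset.univ (fun b : Fin (N + 1) => ((b : ℕ) : ℂ)) a).eval x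

theorem lag_pow {N p : ℕ} (hp : p ≤ N) (x : ℂ) : x ^ p = ∑ a, lag N a x * ((a : ℕ) : ℂ) ^ p := by
  have hv : Set.InjOn (fun b : Fin (N + 1) => ((b : ℕ) : ℂ)) (Finset.univ : Finset (Fin (N + 1))) :=
    fun a _ b _ h => Fin.ext (Nat.cast_injective h)
  have h1 := Lagrange.eq_interpolate (f := (Polynomial.X : Polynomial ℂ) ^ p) hv (by
    rw [Polynomial.degree_X_pow, Finset.card_univ, Fintype.card_fin]
    exact_mod_cast Nat.lt_succ_of_le hp)
  have h2 := congrArg (fun P => Polynomial.eval x P) h1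
  simp only [Polynomial.eval_pow, Polynomial.eval_X, Lagrange.interpolate_apply,
    Polynomial.eval_finsetSum, Polynomial.eval_mul, Polynomial.eval_C] at h2
  rw [h2]
  exact Finset.sum_congr rfl fun a _ => mul_comm _ _

theorem interp_mv {s N : ℕ} (P : MvPolynomial (Fin s) ℂ) (h : ∀ i, P.degreeOf i ≤ N)
    (e : Fin s → ℂ) : MvPolynomial.eval e P = ∑ g : Fin s → Fin (N + 1),
      (∏ i, lag N (g i) (e i)) * MvPolynomial.eval (fun i => ((g i : ℕ) : ℂ)) P := by
  classical
  simp only [MvPolynomial.eval_eq', Finset.mul_sum]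
  rw [Finset.sum_comm]
  refine Finset.sum_congr rfl fun α hα => ?_
  have h1 : ∏ i, e i ^ α i = ∑ g : Fin s → Fin (N + 1),
      ∏ i, (lag N (g i) (e i) * ((g i : ℕ) : ℂ) ^ α i) := by
    rw [Finset.prod_congr rfl fun i _ => lag_pow
      ((MvPolynomial.monomial_le_degreeOf i hα).trans (h i)) (e i), Finset.prod_univ_sum,
      Fintype.piFinset_univ]
  rw [h1, Finset.mul_sum]
  refine Finset.sum_congr rfl fun g _ => ?_
  rw [Finset.prod_mul_distrib]
  ring

theorem fam {r s N t : ℕ} (c : Fin r → Fin m → MvPolynomial (Fin s) ℂ)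
    (hc : ∀ i l, ∀ β : Fin m → ℕ, ∑ j, β j = d → (∏ j, c i j ^ β j).degreeOf l ≤ N)
    {ι : Type*} (l : Filter ι) [l.NeBot] (n : ι → ℕ) (idx : (k : ι) → Fin (n k) → Fin r)
    (τ : ι → Fin m → ℂ) (e : (k : ι) → Fin (n k) → Fin s → ℂ)
    (lam : (k : ι) → Fin (n k) → ℂ) (φ : (Fin m → ℕ) → ℂ)
    (hlim : ∀ β : Fin m → ℕ, ∑ j, β j = d → Tendsto (fun k => ∑ a, lam k a *
      ∏ j, (τ k j * MvPolynomial.eval (e k a) (c (idx k a) j)) ^ β j) l (𝓝 (φ β)))
    (ht : r * (N + 1) ^ s * (t + 2) < 2 ^ (t + 1)) :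
    ES m d (r * (N + 1) ^ s * (r * (N + 1) ^ s * (2 * (m + 1) * (2 * d + 1)) ^ t)) φ := by
  classical
  let J : Type := Fin r × (Fin s → Fin (N + 1))
  have hJ : Fintype.card J = r * (N + 1) ^ s := by simp [J]
  let ε : J ≃ Fin (r * (N + 1) ^ s) := Fintype.equivFinOfCardEq hJ
  refine clos (n := r * (N + 1) ^ s)
    (fun b j => MvPolynomial.eval (fun i => (((ε.symm b).2 i : ℕ) : ℂ)) (c (ε.symm b).1 j)) l τ
    (fun k b => ∑ a, if idx k a = (ε.symm b).1 then
      lam k a * ∏ i, lag N ((ε.symm b).2 i) (e k a i) else 0) φ (fun β hβ => ?_) ht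
  refine (hlim β hβ).congr fun k => ?_
  rw [Equiv.sum_comp ε.symm (fun p : J => (∑ a, if idx k a = p.1 then
      lam k a * ∏ i, lag N (p.2 i) (e k a i) else 0) *
    ∏ j, (τ k j * MvPolynomial.eval (fun i => ((p.2 i : ℕ) : ℂ)) (c p.1 j)) ^ β j)]
  simp only [Finset.sum_mul]
  rw [Finset.sum_comm]
  refine Finset.sum_congr rfl fun a _ => ?_
  have h1 : ∀ (i : Fin r) (z : Fin s → ℂ), ∏ j, (τ k j * MvPolynomial.eval z (c i j)) ^ β j =
      (∏ j, τ k j ^ β j) * MvPolynomial.eval z (∏ j, c i j ^ β j) := by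
    intro i z
    rw [map_prod, ← Finset.prod_mul_distrib]
    refine Finset.prod_congr rfl fun j _ => ?_
    rw [mul_pow, map_pow]
  simp only [h1]
  rw [Fintype.sum_prod_type, Finset.sum_eq_single (idx k a)]
  · simp only [if_true]
    rw [interp_mv _ (fun l => hc (idx k a) l β hβ) (e k a), Finset.mul_sum, Finset.mul_sum]
    refine Finset.sum_congr rfl fun g _ => ?_
    ring
  · intro i _ hi
    refine Finset.sum_eq_zero fun g _ => ?_
    rw [if_neg (Ne.symm hi), zero_mul]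
  · intro h
    exact absurd (Finset.mem_univ _) h

end WTorus
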