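import Pool.Agent.Lib.MP_e00b88_lc.Core

/-!
MP_e00b88_lc: coefficients of families of powers of linear forms whose coefficients are
Laurent polynomials.
-/

set_option autoImplicit false

open Filter Topology LaurentPolynomial

namespace WTorus

variable {m d : ℕ}

private theorem two_zpow_inj : Function.Injective fun e : ℤ => (2 : ℂ) ^ e := by
  intro a b h
  have h1 : ((2 : ℝ) ^ a : ℝ) = (2 : ℝ) ^ b := by
    have h2 : (((2 : ℝ) ^ a : ℝ) : ℂ) = (((2 : ℝ) ^ b : ℝ) : ℂ) := by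
      push_cast
      exact h
    exact_mod_cast h2
  exact zpow_right_injective₀ (by norm_num) (by norm_num) h1

/-- Interpolation at the points `2 ^ l`. -/
theorem interpol (𝓔 : Finset ℤ) {E : ℤ} (hE : E ∈ 𝓔) : ∃ κ : Fin 𝓔.card → ℂ, ∀ E' ∈ 𝓔,
    ∑ l, κ l * ((2 : ℂ) ^ (l : ℕ)) ^ E' = if E' = E then 1 else 0 := by
  classical
  let v : ℤ → ℂ := fun e => (2 : ℂ) ^ e
  have hv : Set.InjOn v 𝓔 := two_zpow_inj.injOn
  refine ⟨fun l => (Lagrange.basis 𝓔 v E).coeff l, fun E' hE' => ?_⟩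
  have hdeg : (Lagrange.basis 𝓔 v E).natDegree < 𝓔.card := by
    have h1 := Lagrange.degree_basis hv hE
    have h2 : 0 < 𝓔.card := Finset.card_pos.mpr ⟨E, hE⟩
    have h3 := Polynomial.natDegree_eq_of_degree_eq_some h1
    omega
  have h1 : (Lagrange.basis 𝓔 v E).eval (v E') = if E' = E then 1 else 0 := by
    split_ifs with h
    · rw [h]; exact Lagrange.eval_basis_self hv hE
    · exact Lagrange.eval_basis_of_ne (fun h' => h h'.symm) hE'
  rw [← h1, Polynomial.eval_eq_sum_range' hdeg, ← Fin.sum_univ_eq_sum_range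
    (fun l => (Lagrange.basis 𝓔 v E).coeff l * v E' ^ l)]
  refine Finset.sum_congr rfl fun l _ => ?_
  congr 1
  simp only [v]
  rw [← zpow_natCast, ← zpow_mul, ← zpow_natCast, ← zpow_mul, mul_comm]

/-- Evaluation of a Laurent polynomial at a nonzero complex number. -/
private noncomputable def ev (z : ℂˣ) : ℂ[T;T⁻¹] →+* ℂ := LaurentPolynomial.eval₂ (RingHom.id ℂ) z

private theorem ev_eq (z : ℂˣ) (𝓔 : Finset ℤ) (P : ℂ[T;T⁻¹]) (h : P.coeff.support ⊆ 𝓔) :
    ev z P = ∑ e ∈ 𝓔, P.coeff e * (z : ℂ) ^ e := by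
  classical
  have h1 : P = ∑ e ∈ 𝓔, (LaurentPolynomial.C (P.coeff e) * T e : ℂ[T;T⁻¹]) := by
    refine LaurentPolynomial.ext fun a => ?_
    rw [AddMonoidAlgebra.coeff_sum, Finsupp.finsetSum_apply]
    simp only [← single_eq_C_mul_T, AddMonoidAlgebra.coeff_single, Finsupp.single_apply]
    rw [Finset.sum_ite_eq']
    split_ifs with ha
    · rfl
    · by_contra hne
      exact ha (h (Finsupp.mem_support_iff.mpr hne))
  conv_lhs => rw [h1]
  rw [map_sum]
  refine Finset.sum_congr rfl fun e _ => ?_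
  unfold ev
  rw [LaurentPolynomial.eval₂_C_mul_T, RingHom.id_apply, Units.val_zpow_eq_zpow_val]

private theorem coeff_T_mul (a b : ℤ) (P : ℂ[T;T⁻¹]) : (T a * P : ℂ[T;T⁻¹]).coeff b =
    P.coeff (b - a) := by
  have h := AddMonoidAlgebra.coeff_single_mul_eq_mul_coeff (x := P) (r := (1 : ℂ)) (m := a)
    (m₁ := b) (b - a) (fun m' _ => by constructor <;> intro h <;> omega)
  rw [one_mul] at h
  exact h

theorem lau {n n' t : ℕ} (w : Fin m → ℤ) (c : Fin n → Fin m → ℂ[T;T⁻¹]) (𝓔 : Finset ℤ)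
    (h𝓔 : ∀ i, ∀ β : Fin m → ℕ, ∑ j, β j = d → (∏ j, c i j ^ β j).coeff.support ⊆ 𝓔)
    (φ : (Fin m → ℕ) → ℂ)
    (hφ : ∀ β : Fin m → ℕ, ∑ j, β j = d → φ β = ∑ i, (∏ j, (T (w j) * c i j) ^ β j).coeff 0)
    (ψ : ℕ → (Fin m → ℕ) → ℂ) (hψ : ∀ k, ES m d n' (ψ k))
    (hlim : ∀ β : Fin m → ℕ, ∑ j, β j = d → Tendsto (fun k => ψ k β) atTop (𝓝 (φ β)))
    (ht : 𝓔.card * n' * (t + 2) < 2 ^ (t + 1)) :
    ES m d (𝓔.card ^ 2 * n * (2 * (m + 1) * (2 * d + 1)) ^ t) φ := by
  classical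
  -- the coefficient of `ε ^ E`
  let G : ℤ → (Fin m → ℕ) → ℂ := fun E β => ∑ i, (∏ j, c i j ^ β j).coeff E
  have hφG : ∀ β : Fin m → ℕ, ∑ j, β j = d → φ β = G (-∑ j, β j • w j) β := by
    intro β hβ
    rw [hφ β hβ]
    refine Finset.sum_congr rfl fun i _ => ?_
    have h1 : ∏ j, (T (w j) * c i j) ^ β j =
        (T (∑ j, β j • w j) * ∏ j, c i j ^ β j : ℂ[T;T⁻¹]) := by
      simp only [mul_pow, Finset.prod_mul_distrib, T_pow]
      congr 1
      have h2 : ∀ s : Finset (Fin m), ∏ j ∈ s, (T ((β j : ℤ) * w j) : ℂ[T;T⁻¹]) =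
          T (∑ j ∈ s, β j • w j) := by
        intro s
        induction s using Finset.induction_on with
        | empty => simp
        | insert a s ha ih =>
          rw [Finset.prod_insert ha, Finset.sum_insert ha, ih, T_add, nsmul_eq_mul]
      exact h2 Finset.univ
    rw [h1, coeff_T_mul, zero_sub]
  have hGsupp : ∀ β : Fin m → ℕ, ∑ j, β j = d → ∀ E, E ∉ 𝓔 → G E β = 0 := by
    intro β hβ E hE
    refine Finset.sum_eq_zero fun i _ => ?_
    by_contra hne
    exact hE (h𝓔 i β hβ (Finsupp.mem_support_iff.mpr hne))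
  have hGES : ∀ E ∈ 𝓔, ES m d (𝓔.card * n) (G E) := by
    intro E hE
    obtain ⟨κ, hκ⟩ := interpol 𝓔 hE
    have hz : ∀ l : Fin 𝓔.card, ((2 : ℂ) ^ (l : ℕ)) ≠ 0 := fun l => pow_ne_zero _ two_ne_zero
    have h1 := ES.of_fintype (m := m) (d := d) (g := G E)
      (fun p : Fin 𝓔.card × Fin n => κ p.1)
      (fun p j => ev (Units.mk0 _ (hz p.1)) (c p.2 j)) (fun β hβ => by
        rw [Fintype.sum_prod_type, Finset.sum_comm]
        refine Finset.sum_congr rfl fun i _ => ?_
        have h2 : ∀ l : Fin 𝓔.card, ∏ j, ev (Units.mk0 _ (hz l)) (c i j) ^ β j =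
            ∑ e ∈ 𝓔, (∏ j, c i j ^ β j).coeff e * ((2 : ℂ) ^ (l : ℕ)) ^ e := by
          intro l
          have h3 := ev_eq (Units.mk0 _ (hz l)) 𝓔 (∏ j, c i j ^ β j) (h𝓔 i β hβ)
          rw [map_prod] at h3
          simp only [map_pow] at h3
          exact h3
        simp only [h2, Finset.mul_sum]
        rw [Finset.sum_comm, Finset.sum_eq_single E]
        · have h4 := hκ E hE
          rw [if_pos rfl] at h4
          calc (∏ j, c i j ^ β j).coeff E
              = (∏ j, c i j ^ β j).coeff E * ∑ l, κ l * ((2 : ℂ) ^ (l : ℕ)) ^ E := by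
                rw [h4, mul_one]
            _ = _ := by
                rw [Finset.mul_sum]
                refine Finset.sum_congr rfl fun l _ => ?_
                ring
        · intro e he hne
          have h4 := hκ e he
          rw [if_neg hne] at h4
          calc ∑ l, κ l * ((∏ j, c i j ^ β j).coeff e * ((2 : ℂ) ^ (l : ℕ)) ^ e)
              = (∏ j, c i j ^ β j).coeff e * ∑ l, κ l * ((2 : ℂ) ^ (l : ℕ)) ^ e := by
                rw [Finset.mul_sum]
                refine Finset.sum_congr rfl fun l _ => ?_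
                ring
            _ = 0 := by rw [h4, mul_zero]
        · intro h4
          exact absurd hE h4)
    simpa using h1
  -- the weight components
  have hcomp : ∀ E ∈ 𝓔, ES m d (𝓔.card * n * (2 * (m + 1) * (2 * d + 1)) ^ t)
      (fun β => if ∑ j, β j • w j = -E then φ β else 0) := by
    intro E hE
    obtain ⟨κ, hκ⟩ := interpol 𝓔 hE
    have hz : ∀ l : Fin 𝓔.card, ((2 : ℂ) ^ (l : ℕ)) ≠ 0 := fun l => pow_ne_zero _ two_ne_zero
    have hmult : ∀ (l : Fin 𝓔.card) (β : Fin m → ℕ),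
        ∏ j, (((2 : ℂ) ^ (l : ℕ)) ^ (-w j)) ^ β j =
          ((2 : ℂ) ^ (l : ℕ)) ^ (-∑ j, β j • w j) := by
      intro l β
      have h2 : ∀ s : Finset (Fin m), ∏ j ∈ s, (((2 : ℂ) ^ (l : ℕ)) ^ (-w j)) ^ β j =
          ((2 : ℂ) ^ (l : ℕ)) ^ (-∑ j ∈ s, β j • w j) := by
        intro s
        induction s using Finset.induction_on with
        | empty => simp
        | insert a s ha ih =>
          rw [Finset.prod_insert ha, Finset.sum_insert ha, ih, neg_add, zpow_add₀ (hz l)]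
          congr 1
          rw [← zpow_natCast, ← zpow_mul, nsmul_eq_mul]
          congr 1
          ring
      exact h2 Finset.univ
    refine core (w := w) (a := -E) (n' := 𝓔.card * n') (l := atTop) (hGES E hE) (fun β hβ => ?_)
      (fun k β => ∑ l : Fin 𝓔.card, κ l *
        ((∏ j, (((2 : ℂ) ^ (l : ℕ)) ^ (-w j)) ^ β j) * ψ k β)) (fun k => ?_) (fun β hβ => ?_) ht
    · split_ifs with h
      · rw [hφG β hβ, h, neg_neg]
      · rfl
    · have h1 := ES.sum (m := m) (d := d) (n := n') (Finset.univ : Finset (Fin 𝓔.card))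
        (g := fun l β => κ l * ((∏ j, (((2 : ℂ) ^ (l : ℕ)) ^ (-w j)) ^ β j) * ψ k β))
        (fun l _ => by
          have h2 := ((ES.one (d := d) fun j : Fin m => ((2 : ℂ) ^ (l : ℕ)) ^ (-w j)).mul
            (hψ k)).const_mul (κ l)
          rwa [one_mul] at h2)
      simpa using h1
    · have h1 : Tendsto (fun k => (∑ l : Fin 𝓔.card, κ l *
          ((2 : ℂ) ^ (l : ℕ)) ^ (-∑ j, β j • w j)) * ψ k β) atTop
          (𝓝 ((∑ l : Fin 𝓔.card, κ l *
          ((2 : ℂ) ^ (l : ℕ)) ^ (-∑ j, β j • w j)) * φ β)) := (hlim β hβ).const_mul _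
      have h2 : (∑ l : Fin 𝓔.card, κ l * ((2 : ℂ) ^ (l : ℕ)) ^ (-∑ j, β j • w j)) * φ β =
          if ∑ j, β j • w j = -E then φ β else 0 := by
        by_cases h3 : -∑ j, β j • w j ∈ 𝓔
        · rw [hκ _ h3]
          by_cases h4 : ∑ j, β j • w j = -E
          · rw [if_pos h4, if_pos (by rw [h4, neg_neg]), one_mul]
          · rw [if_neg h4, if_neg (fun h5 => h4 (by rw [← h5, neg_neg])), zero_mul]
        · have h4 : φ β = 0 := by rw [hφG β hβ]; exact hGsupp β hβ _ h3
          rw [h4, mul_zero]; split_ifs <;> rfl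
      rw [← h2]
      refine h1.congr fun k => ?_
      rw [Finset.sum_mul]
      refine Finset.sum_congr rfl fun l _ => ?_
      rw [hmult l β]
      ring
  have hsum := ES.sum 𝓔 hcomp
  have hc : 𝓔.card * (𝓔.card * n * (2 * (m + 1) * (2 * d + 1)) ^ t) =
      𝓔.card ^ 2 * n * (2 * (m + 1) * (2 * d + 1)) ^ t := by ring
  rw [hc] at hsum
  refine hsum.congr fun β hβ => ?_
  by_cases h3 : -∑ j, β j • w j ∈ 𝓔
  · rw [Finset.sum_eq_single (-∑ j, β j • w j), if_pos (neg_neg _).symm]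
    · intro E _ hne
      rw [if_neg]
      intro h4
      exact hne (by rw [h4, neg_neg])
    · intro h4
      exact absurd h3 h4
  · have h4 : φ β = 0 := by rw [hφG β hβ]; exact hGsupp β hβ _ h3
    rw [h4]
    refine (Finset.sum_eq_zero fun E _ => ?_).symm
    split_ifs <;> rfl

end WTorus
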