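import Pool.Agent.Lib.MP_e00b88_lc.Lau

/-!
MP_e00b88_lc: powers of linear forms and their normalised coefficients.
-/

set_option autoImplicit false

open MvPolynomial Filter Topology

namespace WTorus

/-- The coefficients of a power of a linear form. -/
theorem coeff_pow_lin {R : Type*} [CommRing R] {m : ℕ} (a : Fin m → R) (d : ℕ)
    (s : Fin m →₀ ℕ) : coeff s ((∑ j, C (a j) * X j : MvPolynomial (Fin m) R) ^ d) =
      if ∑ j, s j = d then (Nat.multinomial Finset.univ (s : Fin m → ℕ) : R) * ∏ j, a j ^ s j
        else 0 := by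
  classical
  rw [Finset.sum_pow_eq_sum_piAntidiag, coeff_sum]
  have h1 : ∀ k : Fin m → ℕ, coeff s ((Nat.multinomial Finset.univ k : MvPolynomial (Fin m) R) *
      ∏ j, (C (a j) * X j) ^ k j) =
      if Finsupp.equivFunOnFinite.symm k = s then
        (Nat.multinomial Finset.univ k : R) * ∏ j, a j ^ k j else 0 := by
    intro k
    have h2 : ((Nat.multinomial Finset.univ k : MvPolynomial (Fin m) R) *
        ∏ j, (C (a j) * X j) ^ k j) = monomial (Finsupp.equivFunOnFinite.symm k)
          ((Nat.multinomial Finset.univ k : R) * ∏ j, a j ^ k j) := by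
      rw [monomial_eq, Finsupp.prod_fintype _ _ (fun i => pow_zero _), map_mul, map_natCast,
        map_prod, mul_assoc, ← Finset.prod_mul_distrib]
      congr 1
      refine Finset.prod_congr rfl fun j _ => ?_
      rw [mul_pow, map_pow]
      rfl
    rw [h2, coeff_monomial]
  simp only [h1]
  by_cases hs : ∑ j, s j = d
  · rw [if_pos hs, Finset.sum_eq_single (s : Fin m → ℕ)]
    · have h3 : Finsupp.equivFunOnFinite.symm (s : Fin m → ℕ) = s := by ext; simp
      rw [if_pos h3]
    · intro k _ hk
      rw [if_neg]
      intro h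
      apply hk
      rw [← h]; ext; simp
    · intro h
      exact absurd (Finset.mem_piAntidiag.mpr ⟨hs, fun _ _ => Finset.mem_univ _⟩) h
  · rw [if_neg hs]
    refine Finset.sum_eq_zero fun k hk => ?_
    rw [if_neg]
    intro h
    apply hs
    rw [← h]
    exact (Finset.mem_piAntidiag.mp hk).1

/-- A linear form is the combination of the variables by its coefficients. -/
theorem eq_lin {R : Type*} [CommRing R] {m : ℕ} {F : MvPolynomial (Fin m) R}
    (h : F.IsHomogeneous 1) : F = ∑ j, C (coeff (Finsupp.single j 1) F) * X j := by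
  classical
  ext s
  rw [coeff_sum]
  simp only [coeff_C_mul, coeff_X]
  by_cases hs : ∃ j, s = Finsupp.single j 1
  · obtain ⟨j, rfl⟩ := hs
    rw [Finset.sum_eq_single j]
    · simp
    · intro k _ hk
      rw [if_neg, mul_zero]
      intro h1
      exact hk (Finsupp.single_left_injective one_ne_zero h1)
    · intro h1
      exact absurd (Finset.mem_univ j) h1
  · have h1 : coeff s F = 0 := by
      by_contra hne
      apply hs
      have h2 := h hne
      have h3 : ∑ j, s j = 1 := by
        rw [Finsupp.weight_apply, Finsupp.sum_fintype _ _ (fun _ => by simp)] at h2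
        simpa using h2
      obtain ⟨j, -, hj⟩ := Finset.exists_ne_zero_of_sum_ne_zero
        (s := Finset.univ) (f := fun j => s j) (by rw [h3]; exact one_ne_zero)
      refine ⟨j, ?_⟩
      have h4 := Finset.add_sum_erase Finset.univ (fun j => s j) (Finset.mem_univ j)
      rw [h3] at h4
      have h5 : s j = 1 := by omega
      have h6 : ∑ k ∈ Finset.univ.erase j, s k = 0 := by omega
      ext k
      by_cases hk : k = j
      · rw [hk, h5]; simp
      · rw [Finsupp.single_apply, if_neg (Ne.symm hk)]
        exact (Finset.sum_eq_zero_iff.mp h6) k (Finset.mem_erase.mpr ⟨hk, Finset.mem_univ k⟩)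
    rw [h1]
    refine (Finset.sum_eq_zero fun j _ => ?_).symm
    rw [if_neg, mul_zero]
    intro h2
    exact hs ⟨j, h2.symm⟩

theorem homog_lin {R : Type*} [CommRing R] {m : ℕ} (a : Fin m → R) :
    (∑ j, C (a j) * X j : MvPolynomial (Fin m) R).IsHomogeneous 1 := by
  refine IsHomogeneous.sum _ _ _ fun j _ => ?_
  have := (isHomogeneous_C (Fin m) (a j)).mul (isHomogeneous_X R j)
  rwa [zero_add] at this

end WTorus
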